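import Pool.Agent.Y614.S2.Br
import Pool.Agent.Y8.EP.EST5

/-!
# Admissibility for weights constant on double groups (`S_EST6`)
-/

open Set Filter Topology MeasureTheory

set_option autoImplicit false

namespace Pool.Agent.Y614.S2

open Pool.Agent.Y5 Pool.Agent.Y5.D Pool.Agent.Y5.E Pool.Agent.Y5.F Pool.Agent.Y5.S2
open Pool.Agent.Y8.EP

lemma nk_nonneg' {I : Type} (r : I → ℝ) (k : ℕ) (z : I → ℝ) : 0 ≤ nk r k z :=
  tsum_nonneg fun _ => sq_nonneg _

lemma wt_le {I : Type} {r r' : I → ℝ} {lam : ℝ}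
    (hr : ∀ i, 1 ≤ r i) (h : ∀ i, r i ≤ lam * r' i) (k : ℕ) (z : I → ℝ) (i : I) :
    (r i ^ k * z i) ^ 2 ≤ lam ^ (2 * k) * (r' i ^ k * z i) ^ 2 := by
  have h2 : r i ^ k ≤ (lam * r' i) ^ k := pow_le_pow_left₀ (by linarith [hr i]) (h i) k
  have h3 : 0 ≤ r i ^ k := pow_nonneg (by linarith [hr i]) k
  have h4 : (r i ^ k) ^ 2 ≤ ((lam * r' i) ^ k) ^ 2 := pow_le_pow_left₀ h3 h2 2
  calc (r i ^ k * z i) ^ 2 = (r i ^ k) ^ 2 * z i ^ 2 := by ring
    _ ≤ ((lam * r' i) ^ k) ^ 2 * z i ^ 2 := mul_le_mul_of_nonneg_right h4 (sq_nonneg _)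
    _ = lam ^ (2 * k) * (r' i ^ k * z i) ^ 2 := by
        rw [mul_pow, pow_mul, pow_right_comm]
        ring

/-- Admissibility is stable under changes of the weights and the rates by bounded factors. -/
theorem adm_trans {I : Type} {d d' r r' : I → ℝ} {c : I → I → I → ℝ} {lam c0 : ℝ}
    (hA : Adm d r c) (hlam : 0 ≤ lam) (hc0 : 0 < c0) (hd' : ∀ i, 0 ≤ d' i)
    (hr' : ∀ i, 1 ≤ r' i) (h1 : ∀ i, r' i ≤ r i) (h2 : ∀ i, r i ≤ lam * r' i)
    (h3 : ∀ i, c0 * (1 + d i) ≤ 1 + d' i) : Adm d' r' c := by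
  have hr := hA.r1
  have hSk : ∀ (k : ℕ) (z : I → ℝ), Sk r' k z → Sk r k z := by
    intro k z hz
    exact Summable.of_nonneg_of_le (fun _ => sq_nonneg _)
      (fun i => wt_le hr h2 k z i) (hz.mul_left (lam ^ (2 * k)))
  have hnk : ∀ (k : ℕ) (z : I → ℝ), Sk r' k z → nk r k z ≤ lam ^ (2 * k) * nk r' k z := by
    intro k z hz
    unfold nk
    rw [← tsum_mul_left]
    exact (hSk k z hz).tsum_le_tsum (fun i => wt_le hr h2 k z i)
      (hz.mul_left (lam ^ (2 * k)))
  refine ⟨hd', hr', ?_, ?_, ?_, ?_⟩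
  · intro R
    refine (hA.rfin (lam * R)).subset fun i hi => ?_
    have hi' : r' i ≤ R := hi
    show r i ≤ lam * R
    exact (h2 i).trans (mul_le_mul_of_nonneg_left hi' hlam)
  · intro i z y hz hy
    exact hA.summ i z y (hSk 1 z hz) (hSk 1 y hy)
  · intro i
    obtain ⟨Ci, hCi⟩ := hA.loc i
    exact ⟨Ci, fun z y hz hy => hCi z y (hSk 1 z hz) (hSk 1 y hy)⟩
  · intro k
    obtain ⟨Ck, hCk⟩ := hA.est k
    refine ⟨c0⁻¹ * (|Ck| * (lam ^ (2 * (k + 1)) * lam ^ (2 * 1))), ?_⟩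
    intro z y hz hy
    have hmono : ∀ z : I → ℝ, Sk r' (k + 1) z → Sk r' 1 z := by
      intro z hz
      apply Summable.of_nonneg_of_le (fun _ => sq_nonneg _) _ hz
      intro i
      have h4 : 1 ≤ r' i := hr' i
      have h5 : r' i ^ 1 ≤ r' i ^ (k + 1) := pow_le_pow_right₀ h4 (by omega)
      rw [mul_pow, mul_pow]
      apply mul_le_mul_of_nonneg_right _ (sq_nonneg _)
      exact pow_le_pow_left₀ (by positivity) h5 2
    obtain ⟨hs, hb⟩ := hCk z y (hSk _ z hz) (hSk _ y hy)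
    have hle : ∀ i, (r' i ^ (k + 1) * bl c z y i) ^ 2 / (1 + d' i) ≤
        c0⁻¹ * ((r i ^ (k + 1) * bl c z y i) ^ 2 / (1 + d i)) := by
      intro i
      have hd := hA.d0 i
      have e1 : (r' i ^ (k + 1) * bl c z y i) ^ 2 ≤ (r i ^ (k + 1) * bl c z y i) ^ 2 := by
        rw [mul_pow, mul_pow]
        apply mul_le_mul_of_nonneg_right _ (sq_nonneg _)
        apply pow_le_pow_left₀ (pow_nonneg (by linarith [hr' i]) _)
        exact pow_le_pow_left₀ (by linarith [hr' i]) (h1 i) _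
      calc (r' i ^ (k + 1) * bl c z y i) ^ 2 / (1 + d' i)
          ≤ (r i ^ (k + 1) * bl c z y i) ^ 2 / (c0 * (1 + d i)) :=
            div_le_div₀ (sq_nonneg _) e1 (by positivity) (h3 i)
        _ = c0⁻¹ * ((r i ^ (k + 1) * bl c z y i) ^ 2 / (1 + d i)) := by
            rw [mul_comm c0, ← div_div, div_eq_inv_mul _ c0]
    have hpos : ∀ i, 0 ≤ (r' i ^ (k + 1) * bl c z y i) ^ 2 / (1 + d' i) := by
      intro i
      have := hd' i
      positivity
    have hs' : Summable (fun i => (r' i ^ (k + 1) * bl c z y i) ^ 2 / (1 + d' i)) :=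
      Summable.of_nonneg_of_le hpos hle (hs.mul_left _)
    refine ⟨hs', ?_⟩
    have n1 := nk_nonneg' r' (k + 1) z
    have n2 := nk_nonneg' r' (k + 1) y
    have n3 := nk_nonneg' r' 1 z
    have n4 := nk_nonneg' r' 1 y
    have m1 := hnk (k + 1) z hz
    have m2 := hnk (k + 1) y hy
    have m3 := hnk 1 z (hmono z hz)
    have m4 := hnk 1 y (hmono y hy)
    have p1 := nk_nonneg' r (k + 1) z
    have p2 := nk_nonneg' r (k + 1) y
    have p3 := nk_nonneg' r 1 z
    have p4 := nk_nonneg' r 1 y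
    have q1 : nk r (k + 1) z * nk r 1 y ≤
        (lam ^ (2 * (k + 1)) * nk r' (k + 1) z) * (lam ^ (2 * 1) * nk r' 1 y) :=
      mul_le_mul m1 m4 p4 (by positivity)
    have q2 : nk r 1 z * nk r (k + 1) y ≤
        (lam ^ (2 * 1) * nk r' 1 z) * (lam ^ (2 * (k + 1)) * nk r' (k + 1) y) :=
      mul_le_mul m3 m2 p2 (by positivity)
    calc ∑' i, (r' i ^ (k + 1) * bl c z y i) ^ 2 / (1 + d' i)
        ≤ ∑' i, c0⁻¹ * ((r i ^ (k + 1) * bl c z y i) ^ 2 / (1 + d i)) :=
          hs'.tsum_le_tsum hle (hs.mul_left _)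
      _ = c0⁻¹ * ∑' i, ((r i ^ (k + 1) * bl c z y i) ^ 2 / (1 + d i)) := tsum_mul_left
      _ ≤ c0⁻¹ * (|Ck| * (nk r (k + 1) z * nk r 1 y + nk r 1 z * nk r (k + 1) y)) := by
          apply mul_le_mul_of_nonneg_left _ (inv_nonneg.2 hc0.le)
          refine hb.trans ?_
          apply mul_le_mul_of_nonneg_right (le_abs_self _)
          positivity
      _ ≤ c0⁻¹ * (|Ck| * ((lam ^ (2 * (k + 1)) * nk r' (k + 1) z) * (lam ^ (2 * 1) * nk r' 1 y) +
            (lam ^ (2 * 1) * nk r' 1 z) * (lam ^ (2 * (k + 1)) * nk r' (k + 1) y))) := by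
          apply mul_le_mul_of_nonneg_left _ (inv_nonneg.2 hc0.le)
          exact mul_le_mul_of_nonneg_left (add_le_add q1 q2) (abs_nonneg _)
      _ = _ := by ring

theorem t_EST6 : S_EST6 := by
  intro J g κ μ lam Λ M a L C ℓ B c hK hS ha
  have hS5 := sq5_of hS
  have hA := t_EST5 J g κ μ lam Λ M L C (lp' κ μ L) B c hK hS5
  have hmu := mu_pos hS
  have hmu1 : 1 ≤ μ := le_trans (by norm_num) hS.μ_big
  have hlam := lam_pos hS
  have hL0 := hS.L0
  have hlam1 : 1 ≤ lam := by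
    have h1 := hS.μ_eq
    have h2 := hS.κ1
    nlinarith
  have hLpos : ∀ n, 1 ≤ L n := by
    intro n
    induction n with
    | zero => exact hL0
    | succ n ih =>
      rw [hS.L_succ]
      nlinarith
  have hLle : ∀ n, L (2 * (n / 2)) ≤ L n ∧ L n ≤ lam * L (2 * (n / 2)) := by
    intro n
    rcases Nat.even_or_odd' n with ⟨m, rfl | rfl⟩
    · have e : 2 * (2 * m / 2) = 2 * m := by omega
      rw [e]
      refine ⟨le_rfl, ?_⟩
      nlinarith [hLpos (2 * m)]
    · have e : 2 * ((2 * m + 1) / 2) = 2 * m := by omega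
      rw [e, hS.L_succ]
      refine ⟨?_, le_rfl⟩
      nlinarith [hLpos (2 * m)]
  have hkL := kL_eq hS
  -- lower bound of the rates
  have hpow : ∀ n, μ ^ n ≤ μ * μ ^ (2 * (n / 2)) := by
    intro n
    rw [← pow_succ']
    exact pow_le_pow_right₀ hmu1 (by omega)
  have hexp : 1 ≤ Real.exp μ := Real.one_le_exp hmu.le
  refine adm_trans (lam := lam) (c0 := min 1 (a / (μ * Real.exp μ))) hA hlam.le
    (lt_min one_pos (by positivity)) ?_ (fun i => hLpos _) (fun i => (hLle _).1)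
    (fun i => (hLle _).2) ?_
  · intro i
    show 0 ≤ a * (κ ^ (2 * (gr g i / 2)) * L (2 * (gr g i / 2)))
    rw [hkL]
    positivity
  · intro i
    have hdF : dF (lp' κ μ L) (Sd κ μ L) g i ≤ Real.exp μ * (μ ^ (gr g i) * L 0) := by
      rcases i with n | j
      · show lp' κ μ L n ≤ Real.exp μ * (μ ^ n * L 0)
        rcases n with _ | n
        · show L 0 / (10 ^ 6 * μ) ≤ _
          rw [pow_zero, one_mul]
          have h1 : L 0 / (10 ^ 6 * μ) ≤ L 0 := div_le_self (by linarith) (by nlinarith)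
          nlinarith
        · show 9 / 10 * (κ ^ n * L n) ≤ _
          rw [hkL]
          have h1 : 0 < μ ^ n * L 0 := by positivity
          have h2 : μ ^ n * L 0 ≤ μ ^ (n + 1) * L 0 := by
            apply mul_le_mul_of_nonneg_right _ (by linarith)
            exact pow_le_pow_right₀ hmu1 (by omega)
          nlinarith
      · show Real.exp μ * (κ ^ (g j) * L (g j)) ≤ Real.exp μ * (μ ^ (g j) * L 0)
        rw [hkL]
    have hdB : dB a κ L g i = a * (μ ^ (2 * (gr g i / 2)) * L 0) := by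
      unfold dB
      rw [hkL]
    rw [hdB]
    have h1 := hpow (gr g i)
    have h2 : 0 < μ ^ (gr g i) := by positivity
    have h3 : 0 < μ ^ (2 * (gr g i / 2)) := by positivity
    have hdF0 := hA.d0 i
    have h4 : min 1 (a / (μ * Real.exp μ)) * (dF (lp' κ μ L) (Sd κ μ L) g i) ≤
        a * (μ ^ (2 * (gr g i / 2)) * L 0) := by
      calc min 1 (a / (μ * Real.exp μ)) * (dF (lp' κ μ L) (Sd κ μ L) g i)
          ≤ a / (μ * Real.exp μ) * (Real.exp μ * (μ ^ (gr g i) * L 0)) :=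
            mul_le_mul (min_le_right _ _) hdF hdF0 (by positivity)
        _ = a / μ * (μ ^ (gr g i) * L 0) := by
            field_simp
        _ ≤ a / μ * ((μ * μ ^ (2 * (gr g i / 2))) * L 0) := by
            gcongr
        _ = a * (μ ^ (2 * (gr g i / 2)) * L 0) := by
            field_simp
    have h5 : min 1 (a / (μ * Real.exp μ)) * 1 ≤ 1 := by
      rw [mul_one]
      exact min_le_left _ _
    linarith

end Pool.Agent.Y614.S2
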