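import Pool.Agent.Y614.S2.Br
import Pool.Agent.Y340.EP.P1

/-!
# The velocity is unbounded (`S_VEL6`)
-/

open Set Filter Topology MeasureTheory

set_option autoImplicit false

namespace Pool.Agent.Y614.S2

open Pool.Agent.Y5 Pool.Agent.Y5.D Pool.Agent.Y5.E Pool.Agent.Y5.F Pool.Agent.Y5.S2
open Pool.Agent.Y274.NE Pool.Agent.Y8.EP Pool.Agent.Y340.EP
open Pool.Agent.Y275.ND (syn)

theorem t_VEL6 : S_VEL6 := by
  intro J g σ τ ν κ μ lam Λ M A F L C ℓ N G B e hA hc6 hS6 hK T z hreg hgrow R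
  have hS := sq5_of hS6
  have hc := conc4_of hc6 hS6
  obtain ⟨M', h⟩ := bs_of hc hS hK
  have hL1 := L_one hS
  -- decay of the coefficients
  have hdec : ∀ T' < T, ∀ k : ℕ, ∃ Mk, ∀ t ∈ Icc 0 T', ∀ a, L (gr g a) ^ k * |z a t| ≤ Mk := by
    intro T' hT' k
    obtain ⟨Mk, hMk⟩ := hreg k T' hT'
    refine ⟨√Mk, fun t ht a => ?_⟩
    obtain ⟨h1, h2⟩ := hMk t ht
    have h3 := h1.le_tsum a (fun _ _ => sq_nonneg _)
    have h4 : (L (gr g a) ^ k * z a t) ^ 2 ≤ Mk := h3.trans h2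
    have h5 := Real.abs_le_sqrt h4
    rwa [abs_mul, abs_of_nonneg (pow_nonneg (by linarith [hL1 (gr g a)]) k)] at h5
  have hrapz : ∀ t ∈ Ico 0 T, ∀ p : ℕ, ∃ Cp, ∀ a, L (gr g a) ^ p * |z a t| ≤ Cp := by
    intro t ht p
    obtain ⟨Mk, hMk⟩ := hdec t ht.2 p
    exact ⟨Mk, hMk t ⟨ht.1, le_rfl⟩⟩
  have hgood : ∀ t ∈ Ico 0 T, Summable (fun a => |z a t| * M' (gr g a)) :=
    fun t ht => good_of_rap h (hrapz t ht)
  have hen : ∀ t ∈ Ico 0 T, Summable (fun a => z a t ^ 2) := by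
    intro t ht
    obtain ⟨Mk, hMk⟩ := hreg 0 t ht.2
    have h1 := (hMk t ⟨ht.1, le_rfl⟩).1
    refine h1.congr fun a => ?_
    rw [pow_zero, one_mul]
  -- blow-up
  obtain ⟨n, hn⟩ := N_unbounded hc hS (2000 * (R / A))
  obtain ⟨t, ht, a, ha, hx, hlo, hw, hY⟩ := hgrow n
  have hκ0 := hS.κ0
  have ha0 : 0 ≤ a := le_trans (by positivity) ha
  obtain ⟨y, hy⟩ := blow_lower hc h hS z t (hgood t ht) (hen t ht) n a ha0 hx hlo hw hY
  refine ⟨t, ht, y, ?_⟩
  have h6 := N_one hc hS n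
  have h7 : (9 / 1000 * κ) ^ n * N n ≤ a * N n := mul_le_mul_of_nonneg_right ha (by linarith)
  have e1 : sy e (fun b => A * z b t) = fun k => A • syn e (fun b => z b t) k := by
    funext k
    show ∑' b, (A * z b t) • e b k = A • ∑' b, z b t • e b k
    rw [← tsum_const_smul'']
    refine tsum_congr fun b => ?_
    rw [mul_smul]
  have e2 : fieldOf (sy e (fun b => A * z b t)) y = A • fieldOf (syn e (fun b => z b t)) y := by
    rw [e1]
    show ∑' k : Z3, Real.sin (2 * Real.pi * inner ℝ (vec k) y) • A • syn e (fun b => z b t) k =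
      A • ∑' k : Z3, Real.sin (2 * Real.pi * inner ℝ (vec k) y) • syn e (fun b => z b t) k
    rw [← tsum_const_smul'']
    refine tsum_congr fun k => ?_
    rw [smul_comm]
  rw [e2, norm_smul, Real.norm_eq_abs, abs_of_pos hA]
  have h8 : 2000 * (R / A) < a * N n := lt_of_lt_of_le hn h7
  have h9 : R / A < ‖fieldOf (syn e (fun b => z b t)) y‖ := by linarith
  rw [div_lt_iff₀ hA] at h9
  linarith

end Pool.Agent.Y614.S2
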