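import Pool.Agent.Y5.S2.Stm

/-!
# The parameters and the orthonormal system of the previous stage
-/

open Set Filter Topology MeasureTheory

set_option autoImplicit false

namespace Pool.Agent.Y614.S2

open Pool.Agent.Y5 Pool.Agent.Y5.D Pool.Agent.Y5.E Pool.Agent.Y5.F Pool.Agent.Y5.S2
open Pool.Agent.Y8.EP

/-- the auxiliary damping -/
noncomputable def lp' (κ μ : ℝ) (L : ℕ → ℝ) : ℕ → ℝ
  | 0 => L 0 / (10 ^ 6 * μ)
  | n + 1 => 9 / 10 * (κ ^ n * L n)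

section

variable {J : Type} {g : J → ℕ} {σ : J → J} {τ : J → ℝ} {ν κ μ lam Λ M : ℝ}
  {F L C ℓ N G : ℕ → ℝ} {B : ℕ → ℕ → ℝ} {e : Ix J → Fam}

lemma mu_pos (hS : Sq6 κ μ lam Λ M L C ℓ B) : 0 < μ :=
  lt_of_lt_of_le (by norm_num) hS.μ_big

lemma lam_pos (hS : Sq6 κ μ lam Λ M L C ℓ B) : 0 < lam := by
  have h1 := mu_pos hS
  rw [hS.μ_eq] at h1
  exact (mul_pos_iff_of_pos_left hS.κ0).1 h1

lemma kL_eq (hS : Sq6 κ μ lam Λ M L C ℓ B) (n : ℕ) : κ ^ n * L n = μ ^ n * L 0 := by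
  induction n with
  | zero => simp
  | succ n ih =>
    rw [hS.L_succ, pow_succ, pow_succ]
    have : κ ^ n * κ * (lam * L n) = (κ * lam) * (κ ^ n * L n) := by ring
    rw [this, ih, ← hS.μ_eq]
    ring

lemma kL_pos (hS : Sq6 κ μ lam Λ M L C ℓ B) (n : ℕ) : 0 < κ ^ n * L n := by
  rw [kL_eq hS]
  have := mu_pos hS
  have h0 := hS.L0
  positivity

/-- The parameters of the previous stage. -/
lemma sq5_of (hS : Sq6 κ μ lam Λ M L C ℓ B) : Sq5 κ μ lam Λ M L C (lp' κ μ L) B := by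
  have hmu := mu_pos hS
  have hL0 := hS.L0
  have hpos := kL_pos hS
  refine ⟨hS.κ0, hS.κ1, hS.κs, hS.μ_eq, hS.μ_big, hS.L0, hS.L_succ, hS.Λ_ge, hS.Λ_sq.le,
    hS.M_one, hS.exp_big, hS.C_lo, hS.C_hi, hS.B_lo, hS.B_hi, ?_, ?_, fun n => rfl, ?_⟩
  · intro n
    rcases n with _ | n
    · show 0 ≤ L 0 / (10 ^ 6 * μ)
      positivity
    · show 0 ≤ 9 / 10 * (κ ^ n * L n)
      have := hpos n
      positivity
  · show 10 ^ 6 * (L 0 / (10 ^ 6 * μ) * μ) ≤ L 0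
    apply le_of_eq
    field_simp
  · refine ⟨1 / (10 ^ 6 * μ), by positivity, fun n => ?_⟩
    rw [pow_mul, hS.Λ_sq]
    rcases n with _ | n
    · show 1 / (10 ^ 6 * μ) * μ ^ 0 ≤ L 0 / (10 ^ 6 * μ)
      rw [pow_zero, mul_one]
      gcongr
    · show 1 / (10 ^ 6 * μ) * μ ^ (n + 1) ≤ 9 / 10 * (κ ^ n * L n)
      rw [kL_eq hS]
      have e : 1 / (10 ^ 6 * μ) * μ ^ (n + 1) = 1 / 10 ^ 6 * μ ^ n := by
        field_simp
        ring
      rw [e]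
      have h1 : 0 < μ ^ n := by positivity
      nlinarith

/-- The orthonormal system of the previous stage. -/
lemma conc4_of (hc : Conc6 ν κ μ lam g σ τ F L ℓ N G e) (hS : Sq6 κ μ lam Λ M L C ℓ B) :
    Conc4 0 1 1 κ μ lam g F L (lp' κ μ L) N G e := by
  have hpos := kL_pos hS
  refine ⟨hc.ot, hc.fsupp, hc.F_cmp, hc.F_L, hc.L_F, ?_, hc.disj, hc.orth, hc.compl, ?_, ?_,
    hc.G0, hc.cnt, hc.N0, hc.N_grow, hc.N_up, hc.G_le, hc.l1N, hc.pt⟩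
  · obtain ⟨D, hD, h⟩ := hc.S_F
    refine ⟨D, hD, fun n => ?_⟩
    have e : F n ^ (2 * 1 : ℝ) = F n ^ 2 := by
      rw [mul_one]
      exact_mod_cast Real.rpow_natCast (F n) 2
    rw [e]
    exact h n
  · intro n
    rw [zero_mul, mul_zero]
    exact (sq5_of hS).ℓ_nonneg n
  · intro n
    rw [zero_mul, mul_zero]
    have := hpos n
    positivity

end

end Pool.Agent.Y614.S2
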